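import Pool.Agent.Work.MP_8ac988_an.EP.Asm
import Pool.Agent.Work.MP_8ac988_an.EP.I_DEC
import Pool.Agent.Work.MP_8ac988_an.EP.I_NUL
import Pool.Agent.Work.MP_8ac988_an.EP.I_FOL
import Pool.Agent.Work.MP_8ac988_an.EP.I_NIL
import Pool.Agent.Work.MP_8ac988_an.EP.I_ERG
import Pool.Agent.Work.MP_8ac988_an.EP.I_COR

/-!
# MP_8ac988_an: the positive answer when `T₁ T₂` is ergodic

`a (m, n) = ∫ f · T₁^m T₂^n g · T₁^n T₂^m h dμ` is an approximate 1-step nilsequence in 2 variables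
for all bounded `f`, `g`, `h` if `T₁ T₂` is ergodic and, more generally, if every eigenfunction of
`T₁ T₂` is a limit in `L²` of sums of joint eigenfunctions of `T₁` and `T₂`.

The definitions are in `Pool/Agent/Work/MP_8ac988_an/EP/Stmts.lean`.
-/

set_option autoImplicit false

open MeasureTheory
open scoped ENNReal

namespace Pool.Agent.Results.MP_8ac988_an.ErgodicProduct

open Pool.Agent.Work.MP_8ac988_an.EP

/-- (1) The joint spectrum condition implies that `a` is an approximate 1-step nilsequence.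
(2) In particular this holds if `T₁ T₂` is ergodic. -/
theorem result :
    (∀ (X : Type) [MeasurableSpace X] (μ : Measure X) [IsProbabilityMeasure μ] (T₁ T₂ : X ≃ᵐ X),
      MeasurePreserving T₁ μ μ → MeasurePreserving T₂ μ μ → (∀ x, T₁ (T₂ x) = T₂ (T₁ x)) →
      JointSpectrum μ T₁ T₂ →
      ∀ f g h : X → ℂ, MemLp f ⊤ μ → MemLp g ⊤ μ → MemLp h ⊤ μ →
        IsApproxNilsequence 1 (corr μ T₁ T₂ f g h)) ∧
    ∀ (X : Type) [MeasurableSpace X] (μ : Measure X) [IsProbabilityMeasure μ] (T₁ T₂ : X ≃ᵐ X),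
      MeasurePreserving T₁ μ μ → MeasurePreserving T₂ μ μ → (∀ x, T₁ (T₂ x) = T₂ (T₁ x)) →
      Ergodic (fun x => T₁ (T₂ x)) μ →
      ∀ f g h : X → ℂ, MemLp f ⊤ μ → MemLp g ⊤ μ → MemLp h ⊤ μ →
        IsApproxNilsequence 1 (corr μ T₁ T₂ f g h) := by
  refine ⟨fun X _ μ _ T₁ T₂ h1 h2 hc hJ f g h hf hg hh => ?_,
    fun X _ μ _ T₁ T₂ h1 h2 hc hE f g h hf hg hh => ?_⟩
  · exact asm NNUL.prf NFOL.prf NNIL.prf NCOR.prf NDEC.prf T₁ T₂ h1 h2 hc hJ f g h hf hg hh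
  · exact asm NNUL.prf NFOL.prf NNIL.prf NCOR.prf NDEC.prf T₁ T₂ h1 h2 hc
      (NERG.prf X μ T₁ T₂ h1 h2 hc hE) f g h hf hg hh

end Pool.Agent.Results.MP_8ac988_an.ErgodicProduct
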