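import Mathlib

/-!
# A negative answer to the question on `∫ f · T₁^m T₂^n g · T₁^n T₂^m h dμ`

Let `S (x, y) = (x + α, y + 2 x + α)` on the 2-torus, `α = √2`, and let `R z = z + β` on the
circle, `β = √3`.  Put `T₁ = S × R`, `T₂ = S⁻¹ × R`.  These commute, both are ergodic and they
generate a free action of `ℤ²`.  With `f = e(-2y)`, `g = h = e(y)` one gets
`a (m, n) = e (2 (m - n)² α)`.  A 1-step nilsequence `b (m, n) = Ψ (τ₁^m τ₂^n e_Y)` is uniformly
recurrent: for some `k ≥ 1`, `b (m + k, n)` is uniformly close to `b (m, n)`; but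
`|a (m + k, n) - a (m, n)|²` has average `2` over large squares, since `4 k α` is irrational.
Hence `a` is not an approximate 1-step nilsequence.
-/

set_option autoImplicit false

open MeasureTheory Filter Topology
open scoped ENNReal Manifold ContDiff

namespace Pool.Agent.Results.MP_8ac988_an.NotOneStep

/-! ## Definitions used in the statement -/

/-- `a : ℕ² → ℂ` (`ℕ = {1, 2, ...}`) is an `s`-step nilsequence in 2 variables: there are a
finite-dimensional real Lie group `G`, nilpotent of step at most `s` (its lower central series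
reaches the trivial group after `s` steps), a discrete cocompact subgroup `Γ`, a continuous
`Ψ : G ⧸ Γ → ℂ` and commuting `τ₁ τ₂ ∈ G` with `a (m, n) = Ψ (τ₁ ^ m * τ₂ ^ n • e_Y)`, where `e_Y`
is the image of the identity. -/
def IsNilsequence (s : ℕ) (a : ℕ+ × ℕ+ → ℂ) : Prop :=
  ∃ (d : ℕ) (G : Type) (_ : TopologicalSpace G)
    (_ : ChartedSpace (EuclideanSpace ℝ (Fin d)) G) (_ : Group G)
    (_ : LieGroup (𝓡 d) ∞ G) (Γ : Subgroup G) (Ψ : G ⧸ Γ → ℂ) (τ₁ τ₂ : G),
    (Subgroup.lowerCentralSeries (⊤ : Subgroup G) s = ⊥) ∧ DiscreteTopology Γ ∧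
    CompactSpace (G ⧸ Γ) ∧ Continuous Ψ ∧ Commute τ₁ τ₂ ∧
    ∀ m n : ℕ+, a (m, n) = Ψ ((τ₁ ^ (m : ℕ) * τ₂ ^ (n : ℕ)) • ((1 : G) : G ⧸ Γ))

/-- The inclusion `ℕ² ⊆ ℤ²` (`ℕ = {1, 2, ...}`). -/
def embZ (p : ℕ+ × ℕ+) : ℤ × ℤ := (((p.1 : ℕ) : ℤ), ((p.2 : ℕ) : ℤ))

/-- Følner sequences in `ℕ²`: nonempty finite sets `I j` such that, for every `k ∈ ℤ²`,
`|(I j + k) ∆ I j| / |I j| → 0` (computed in `ℤ²`). -/
def IsFolner (I : ℕ → Finset (ℕ+ × ℕ+)) : Prop :=
  (∀ j, (I j).Nonempty) ∧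
  ∀ k : ℤ × ℤ, Tendsto (fun j =>
    ((symmDiff (((I j).image embZ).image (fun p => p + k)) ((I j).image embZ)).card : ℝ) /
      ((I j).card : ℝ)) atTop (𝓝 0)

/-- The seminorm `‖a‖₂ = (sup over Følner sequences of limsup of the averages of |a|²)^(1/2)`,
with values in `[0, ∞]`. -/
noncomputable def seminorm2 (a : ℕ+ × ℕ+ → ℂ) : ℝ≥0∞ :=
  (⨆ (I : ℕ → Finset (ℕ+ × ℕ+)) (_ : IsFolner I),
    limsup (fun j => (∑ p ∈ I j, ‖a p‖ₑ ^ 2) / ((I j).card : ℝ≥0∞)) atTop) ^ (1 / 2 : ℝ)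

/-- A (bounded) `a : ℕ² → ℂ` is an approximate `s`-step nilsequence in 2 variables: for every
`ε > 0` one can write `a = ast + aer` with `ast` an `s`-step nilsequence, `‖ast‖_∞ ≤ ‖a‖_∞` and
`‖aer‖₂ ≤ ε`. -/
def IsApproxNilsequence (s : ℕ) (a : ℕ+ × ℕ+ → ℂ) : Prop :=
  ∀ ε : ℝ, 0 < ε → ∃ ast aer : ℕ+ × ℕ+ → ℂ, (∀ p, a p = ast p + aer p) ∧
    IsNilsequence s ast ∧ (⨆ p, ‖ast p‖ₑ) ≤ (⨆ p, ‖a p‖ₑ) ∧ seminorm2 aer ≤ ENNReal.ofReal ε

/-- The sequence `a(m, n) = ∫ f · T₁^m T₂^n g · T₁^n T₂^m h dμ` (with `T g = g ∘ T`). -/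
noncomputable def corr {X : Type} [MeasurableSpace X] (μ : Measure X) (T₁ T₂ : X ≃ᵐ X)
    (f g h : X → ℂ) (p : ℕ+ × ℕ+) : ℂ :=
  ∫ x, f x * g (T₁^[(p.1 : ℕ)] (T₂^[(p.2 : ℕ)] x)) * h (T₁^[(p.2 : ℕ)] (T₂^[(p.1 : ℕ)] x)) ∂μ

/-! ## Følner boxes -/

/-- the shifted box -/
def bmap (c : ℕ) (p : ℕ × ℕ) : ℕ+ × ℕ+ := (Nat.succPNat (c + p.1), Nat.succPNat p.2)

lemma bmap_inj (c : ℕ) : Function.Injective (bmap c) := by
  intro p q h
  simp only [bmap, Prod.mk.injEq] at h
  have h1 := Nat.succPNat_injective h.1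
  have h2 := Nat.succPNat_injective h.2
  ext <;> omega

def sqr (N : ℕ) : Finset (ℕ × ℕ) := Finset.range N ×ˢ Finset.range N

def boxs (c : ℕ) (j : ℕ) : Finset (ℕ+ × ℕ+) := (sqr (j+1)).map ⟨bmap c, bmap_inj c⟩

lemma boxs_card (c j : ℕ) : (boxs c j).card = (j+1)*(j+1) := by
  simp [boxs, sqr]

noncomputable def zbox (c : ℕ) (N : ℕ) : Finset (ℤ × ℤ) :=
  Finset.Ico ((c:ℤ)+1) (c+1+N) ×ˢ Finset.Ico (1:ℤ) (1+N)

lemma boxs_image (c j : ℕ) : (boxs c j).image embZ = zbox c (j+1) := by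
  ext ⟨x, y⟩
  simp only [boxs, sqr, Finset.mem_image, Finset.mem_map, Finset.mem_product, Finset.mem_range,
    Function.Embedding.coeFn_mk, bmap, embZ, zbox, Finset.mem_Ico]
  constructor
  · rintro ⟨q, ⟨p, ⟨h1, h2⟩, rfl⟩, h3⟩
    simp only [Nat.succPNat_coe, Prod.mk.injEq] at h3
    obtain ⟨h3, h4⟩ := h3
    push_cast at h3 h4 ⊢
    omega
  · rintro ⟨⟨h1, h2⟩, ⟨h3, h4⟩⟩
    refine ⟨_, ⟨((x - c - 1).toNat, (y-1).toNat), ⟨?_, ?_⟩, rfl⟩, ?_⟩
    · push_cast at *; omega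
    · push_cast at *; omega
    · simp only [Nat.succPNat_coe, Prod.mk.injEq]
      push_cast at *
      constructor <;> omega

lemma zbox_diff (c N : ℕ) (k : ℤ × ℤ) :
    ((zbox c N).filter (fun q => q + k ∉ zbox c N)).card ≤ 2 * (k.1.natAbs + k.2.natAbs) * N := by
  have hsub : ((zbox c N).filter (fun q => q + k ∉ zbox c N)) ⊆
      ((Finset.Ico ((c:ℤ)+1) (c+1+k.1.natAbs) ∪ Finset.Ico ((c:ℤ)+1+N-k.1.natAbs) (c+1+N)) ×ˢ
        Finset.Ico (1:ℤ) (1+N)) ∪
      (Finset.Ico ((c:ℤ)+1) (c+1+N) ×ˢ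
       (Finset.Ico (1:ℤ) (1+k.2.natAbs) ∪ Finset.Ico ((1:ℤ)+N-k.2.natAbs) (1+N))) := by
    intro q hq
    simp only [zbox, Finset.mem_filter, Finset.mem_product, Finset.mem_Ico, Prod.fst_add,
      Prod.snd_add, Finset.mem_union] at hq ⊢
    omega
  refine (Finset.card_le_card hsub).trans ?_
  refine (Finset.card_union_le _ _).trans ?_
  rw [Finset.card_product, Finset.card_product]
  have e1 : (Finset.Ico ((c:ℤ)+1) (c+1+k.1.natAbs) ∪
      Finset.Ico ((c:ℤ)+1+N-k.1.natAbs) (c+1+N)).card ≤ 2 * k.1.natAbs := by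
    refine (Finset.card_union_le _ _).trans ?_
    rw [Int.card_Ico, Int.card_Ico]
    omega
  have e2 : (Finset.Ico (1:ℤ) (1+k.2.natAbs) ∪
      Finset.Ico ((1:ℤ)+N-k.2.natAbs) (1+N)).card ≤ 2 * k.2.natAbs := by
    refine (Finset.card_union_le _ _).trans ?_
    rw [Int.card_Ico, Int.card_Ico]
    omega
  have e3 : (Finset.Ico (1:ℤ) (1+N)).card = N := by rw [Int.card_Ico]; omega
  have e4 : (Finset.Ico ((c:ℤ)+1) (c+1+N)).card = N := by rw [Int.card_Ico]; omega
  rw [e3, e4]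
  nlinarith

lemma zbox_symmDiff (c N : ℕ) (k : ℤ × ℤ) :
    (symmDiff ((zbox c N).image (fun p => p + k)) (zbox c N)).card ≤
      4 * (k.1.natAbs + k.2.natAbs) * N := by
  have h1 : (((zbox c N).image (fun p => p + k)) \ (zbox c N)).card ≤
      2 * (k.1.natAbs + k.2.natAbs) * N := by
    refine le_trans ?_ (zbox_diff c N k)
    refine le_trans (Finset.card_le_card (t := ((zbox c N).filter (fun q => q + k ∉ zbox c N)).image
      (fun p => p + k)) ?_) Finset.card_image_le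
    intro p hp
    simp only [Finset.mem_sdiff, Finset.mem_image, Finset.mem_filter] at hp ⊢
    obtain ⟨⟨q, hq, rfl⟩, h2⟩ := hp
    exact ⟨q, ⟨hq, h2⟩, rfl⟩
  have h2 : ((zbox c N) \ ((zbox c N).image (fun p => p + k))).card ≤
      2 * (k.1.natAbs + k.2.natAbs) * N := by
    have := zbox_diff c N (-k)
    simp only [Prod.fst_neg, Prod.snd_neg, Int.natAbs_neg] at this
    refine le_trans (Finset.card_le_card ?_) this
    intro p hp
    simp only [Finset.mem_sdiff, Finset.mem_image, Finset.mem_filter, not_exists, not_and] at hp ⊢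
    refine ⟨hp.1, fun h => hp.2 _ h (by simp)⟩
  rw [symmDiff_def, Finset.sup_eq_union]
  refine (Finset.card_union_le _ _).trans ?_
  linarith

lemma boxs_folner (c : ℕ) : IsFolner (boxs c) := by
  refine ⟨fun j => ?_, fun k => ?_⟩
  · rw [← Finset.card_pos, boxs_card]; positivity
  · have hbound : ∀ j : ℕ, ((symmDiff (((boxs c j).image embZ).image (fun p => p + k))
        ((boxs c j).image embZ)).card : ℝ) / ((boxs c j).card : ℝ) ≤
        (4 * (k.1.natAbs + k.2.natAbs) : ℕ) * (1 / ((j:ℝ)+1)) := by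
      intro j
      rw [boxs_image, boxs_card]
      have h := zbox_symmDiff c (j+1) k
      have h' : ((symmDiff ((zbox c (j+1)).image (fun p => p + k)) (zbox c (j+1))).card : ℝ) ≤
        ((4 * (k.1.natAbs + k.2.natAbs) * (j+1) : ℕ) : ℝ) := by exact_mod_cast h
      rw [div_le_iff₀ (by positivity)]
      refine h'.trans (le_of_eq ?_)
      push_cast
      field_simp
    refine squeeze_zero (fun j => by positivity) hbound ?_
    have := tendsto_one_div_add_atTop_nhds_zero_nat (𝕜 := ℝ)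
    simpa using this.const_mul ((4 * (k.1.natAbs + k.2.natAbs) : ℕ) : ℝ)

/-- consequence of a seminorm bound -/
lemma limsup_le_of_seminorm {r : ℕ+ × ℕ+ → ℂ} {ε : ℝ} (h : seminorm2 r ≤ ENNReal.ofReal ε)
    (c : ℕ) :
    limsup (fun j => (∑ p ∈ boxs c j, ‖r p‖ₑ ^ 2) / ((boxs c j).card : ℝ≥0∞)) atTop ≤
      (ENNReal.ofReal ε) ^ 2 := by
  have h1 : (⨆ (I : ℕ → Finset (ℕ+ × ℕ+)) (_ : IsFolner I),
    limsup (fun j => (∑ p ∈ I j, ‖r p‖ₑ ^ 2) / ((I j).card : ℝ≥0∞)) atTop) ≤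
    (ENNReal.ofReal ε) ^ 2 := by
    have := ENNReal.rpow_le_rpow h (z := 2) (by norm_num)
    rw [seminorm2, ← ENNReal.rpow_mul] at this
    norm_num at this
    simpa using this
  refine le_trans ?_ h1
  exact le_iSup₂_of_le (boxs c) (boxs_folner c) le_rfl

/-! ## The system -/


abbrev X3 : Type := UnitAddTorus (Fin 3)

noncomputable def mu3 : Measure X3 := Measure.pi fun _ => AddCircle.haarAddCircle

lemma isProb_mu3 : IsProbabilityMeasure mu3 := by unfold mu3; infer_instance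

attribute [local instance] isProb_mu3

/-- `T (x,y,z) = (x + σ α, y + 2 σ x + α, z + β)` -/
noncomputable def Tmap (σ : ℤ) (α β : UnitAddCircle) (p : X3) : X3 :=
  ![p 0 + σ • α, p 1 + (2 * σ) • p 0 + α, p 2 + β]

noncomputable def Tinv (σ : ℤ) (α β : UnitAddCircle) (p : X3) : X3 :=
  ![p 0 - σ • α, p 1 - (2 * σ) • p 0 + α, p 2 - β]

lemma Tinv_Tmap {σ : ℤ} (hσ : σ * σ = 1) (α β : UnitAddCircle) (p : X3) :
    Tinv σ α β (Tmap σ α β p) = p := by
  have h2 : (2 * σ) • (σ • α) = (2 : ℤ) • α := by rw [smul_smul, mul_assoc, hσ, mul_one]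
  ext i
  fin_cases i
  · simp [Tinv, Tmap]
  · simp only [Tinv, Tmap, Fin.mk_one, Matrix.cons_val_one, Matrix.cons_val_zero, smul_add, h2]
    abel
  · simp [Tinv, Tmap]

lemma Tmap_Tinv {σ : ℤ} (hσ : σ * σ = 1) (α β : UnitAddCircle) (p : X3) :
    Tmap σ α β (Tinv σ α β p) = p := by
  have h2 : (2 * σ) • (σ • α) = (2 : ℤ) • α := by rw [smul_smul, mul_assoc, hσ, mul_one]
  ext i
  fin_cases i
  · simp [Tinv, Tmap]
  · simp only [Tinv, Tmap, Fin.mk_one, Matrix.cons_val_one, Matrix.cons_val_zero, smul_sub, h2]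
    abel
  · simp [Tinv, Tmap]

lemma continuous_Tmap (σ : ℤ) (α β : UnitAddCircle) : Continuous (Tmap σ α β) := by
  refine continuous_pi fun i => ?_
  fin_cases i
  · simp only [Tmap]; simp; fun_prop
  · simp only [Tmap]; simp; fun_prop
  · simp only [Tmap]; simp; fun_prop

lemma continuous_Tinv (σ : ℤ) (α β : UnitAddCircle) : Continuous (Tinv σ α β) := by
  refine continuous_pi fun i => ?_
  fin_cases i
  · simp only [Tinv]; simp; fun_prop
  · simp only [Tinv]; simp; fun_prop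
  · simp only [Tinv]; simp; fun_prop

noncomputable def TE (σ : ℤ) (hσ : σ * σ = 1) (α β : UnitAddCircle) : X3 ≃ᵐ X3 where
  toFun := Tmap σ α β
  invFun := Tinv σ α β
  left_inv := Tinv_Tmap hσ α β
  right_inv := Tmap_Tinv hσ α β
  measurable_toFun := (continuous_Tmap σ α β).measurable
  measurable_invFun := (continuous_Tinv σ α β).measurable

/-- linear part -/
noncomputable def Alin (σ : ℤ) : X3 →+ X3 where
  toFun p := ![p 0, p 1 + (2 * σ) • p 0, p 2]
  map_zero' := by ext i; fin_cases i <;> simp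
  map_add' p q := by
    ext i
    fin_cases i
    · simp
    · simp; abel
    · simp

lemma measurePreserving_Tmap (σ : ℤ) (α β : UnitAddCircle) :
    MeasurePreserving (Tmap σ α β) mu3 mu3 := by
  have : Measure.IsAddHaarMeasure mu3 := by unfold mu3; infer_instance
  have h1 : MeasurePreserving (Alin σ) mu3 mu3 := by
    refine AddMonoidHom.measurePreserving ?_ ?_ rfl
    · refine continuous_pi fun i => ?_
      fin_cases i
      · simp only [Alin]; simp; fun_prop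
      · simp only [Alin]; simp; fun_prop
      · simp only [Alin]; simp; fun_prop
    · intro p
      refine ⟨![p 0, p 1 - (2 * σ) • p 0, p 2], ?_⟩
      ext i
      fin_cases i
      · simp [Alin]
      · simp [Alin]
      · simp [Alin]
  have h2 : MeasurePreserving (fun p : X3 => p + ![σ • α, α, β]) mu3 mu3 :=
    measurePreserving_add_right mu3 _
  have h3 : Tmap σ α β = (fun p : X3 => p + ![σ • α, α, β]) ∘ (Alin σ) := by
    ext p i
    fin_cases i
    · simp [Tmap, Alin]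
    · simp [Tmap, Alin]
    · simp [Tmap, Alin]
  rw [h3]
  exact h2.comp h1


/-- the basic character -/
noncomputable def EE (x : UnitAddCircle) : ℂ := fourier 1 x

lemma EE_add (x y : UnitAddCircle) : EE (x + y) = EE x * EE y := by
  simp [EE, fourier_apply, AddCircle.toCircle_add]

lemma EE_norm (x : UnitAddCircle) : ‖EE x‖ = 1 := by
  simp only [EE, fourier_apply]
  exact Circle.norm_coe _

lemma EE_neg (x : UnitAddCircle) : EE (-x) = (starRingEnd ℂ) (EE x) := by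
  simp only [EE, fourier_apply]
  rw [smul_neg, AddCircle.toCircle_neg, Circle.coe_inv_eq_conj]

lemma EE_zsmul (n : ℤ) (x : UnitAddCircle) : EE (n • x) = fourier n x := by
  simp [EE, fourier_apply]

lemma EE_eq_one {x : UnitAddCircle} : EE x = 1 ↔ x = 0 := by
  simp only [EE, fourier_apply, one_smul]
  constructor
  · intro h
    have h2 : AddCircle.toCircle x = AddCircle.toCircle (0 : UnitAddCircle) := by
      rw [AddCircle.toCircle_zero]
      exact Circle.coe_eq_one.mp h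
    exact AddCircle.injective_toCircle one_ne_zero h2
  · rintro rfl
    simp

lemma mFourier_eq (n : Fin 3 → ℤ) (p : X3) :
    UnitAddTorus.mFourier n p = EE (n 0 • p 0 + n 1 • p 1 + n 2 • p 2) := by
  simp only [UnitAddTorus.mFourier, ContinuousMap.coe_mk, Fin.prod_univ_three, EE_add, EE_zsmul]

/-- Fourier coefficients w.r.t. `mu3` -/
noncomputable def cf (F : X3 → ℂ) (n : Fin 3 → ℤ) : ℂ :=
  ∫ t, UnitAddTorus.mFourier (-n) t * F t ∂mu3

lemma parseval {F : X3 → ℂ} (hF : MemLp F 2 mu3) :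
    HasSum (fun n => ‖cf F n‖ ^ 2) (∫ t, ‖F t‖ ^ 2 ∂mu3) := by
  have h := UnitAddTorus.hasSum_sq_mFourierCoeff (d := Fin 3) (hF.toLp F)
  have hae := hF.coeFn_toLp
  have e1 : ∀ n, UnitAddTorus.mFourierCoeff (hF.toLp F : X3 → ℂ) n = cf F n := by
    intro n
    refine integral_congr_ae ?_
    filter_upwards [hae] with t ht
    rw [ht, smul_eq_mul]
  have e2 : (∫ t, ‖(hF.toLp F : X3 → ℂ) t‖ ^ 2 ∂mu3) = ∫ t, ‖F t‖ ^ 2 ∂mu3 := by
    refine integral_congr_ae ?_
    filter_upwards [hae] with t ht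
    rw [ht]
  rw [← e2]
  have e3 : (fun n => ‖cf F n‖ ^ 2) =
      fun n => ‖UnitAddTorus.mFourierCoeff (hF.toLp F : X3 → ℂ) n‖ ^ 2 :=
    funext fun n => congrArg (fun z : ℂ => ‖z‖ ^ 2) (e1 n).symm
  rw [e3]
  exact h

lemma mFourier_Tmap (σ : ℤ) (α β : UnitAddCircle) (n : Fin 3 → ℤ) (p : X3) :
    UnitAddTorus.mFourier n (Tmap σ α β p) =
      EE ((n 0 * σ + n 1) • α + n 2 • β) *
        UnitAddTorus.mFourier (![n 0 + 2 * σ * n 1, n 1, n 2]) p := by
  rw [mFourier_eq, mFourier_eq, ← EE_add]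
  congr 1
  simp only [Tmap, Matrix.cons_val_zero, Matrix.cons_val_one, Matrix.cons_val, smul_add, smul_smul,
    add_smul]
  rw [mul_comm (n 1) (2 * σ)]
  abel

lemma cf_Tmap (σ : ℤ) (α β : UnitAddCircle) {F : X3 → ℂ}
    (hF : ∀ p, F (Tmap σ α β p) = F p) (hm : MeasurableEmbedding (Tmap σ α β)) (n : Fin 3 → ℤ) :
    cf F n = EE (-((n 0 * σ + n 1) • α + n 2 • β)) * cf F (![n 0 + 2 * σ * n 1, n 1, n 2]) := by
  have h := (measurePreserving_Tmap σ α β).integral_comp hm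
    (fun t => UnitAddTorus.mFourier (-n) t * F t)
  rw [cf, ← h, cf, ← integral_const_mul]
  refine integral_congr_ae (Eventually.of_forall fun p => ?_)
  simp only
  rw [hF, mFourier_Tmap, mul_assoc]
  congr 2
  · simp only [Pi.neg_apply]
    rw [← neg_mul_eq_neg_mul]
    simp only [neg_smul, neg_add_rev, add_smul]
    abel
  · congr 2
    ext i
    fin_cases i <;> simp
    ring

lemma ergodic_Tmap {σ : ℤ} (hσ : σ * σ = 1) {α β : UnitAddCircle}
    (hind : ∀ k m : ℤ, k • α + m • β = 0 → k = 0 ∧ m = 0) : Ergodic (Tmap σ α β) mu3 := by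
  refine ⟨measurePreserving_Tmap σ α β, ⟨fun s hs hinv => ?_⟩⟩
  have hemb : MeasurableEmbedding (Tmap σ α β) := (TE σ hσ α β).measurableEmbedding
  set F : X3 → ℂ := s.indicator 1 with hFdef
  have hF : ∀ p, F (Tmap σ α β p) = F p := by
    intro p
    have : (Tmap σ α β p ∈ s) ↔ p ∈ s := by
      conv_rhs => rw [← hinv]
      rfl
    by_cases hp : p ∈ s
    · rw [hFdef, Set.indicator_of_mem hp, Set.indicator_of_mem (this.mpr hp)]; rfl
    · rw [hFdef, Set.indicator_of_notMem hp, Set.indicator_of_notMem (fun h => hp (this.mp h))]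
  have hFm : MemLp F 2 mu3 := by
    refine MemLp.indicator hs ?_
    exact memLp_const (1 : ℂ)
  have hP := parseval hFm
  have hσ0 : σ ≠ 0 := by rintro rfl; simp at hσ
  have hzero : ∀ n : Fin 3 → ℤ, n ≠ 0 → cf F n = 0 := by
    intro n hn
    by_cases h1 : n 1 = 0
    · have h := cf_Tmap σ α β hF hemb n
      have e : (![n 0 + 2 * σ * n 1, n 1, n 2] : Fin 3 → ℤ) = n := by
        ext i
        fin_cases i <;> simp [h1]
      rw [e] at h
      by_contra hne
      have h2 : EE (-((n 0 * σ + n 1) • α + n 2 • β)) = 1 := by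
        have h3 : (1 - EE (-((n 0 * σ + n 1) • α + n 2 • β))) * cf F n = 0 := by
          linear_combination h
        rcases mul_eq_zero.mp h3 with h4 | h4
        · linear_combination -h4
        · exact absurd h4 hne
      rw [EE_eq_one, neg_eq_zero] at h2
      obtain ⟨h5, h6⟩ := hind _ _ h2
      apply hn
      ext i
      fin_cases i
      · simp only [h1, add_zero, mul_eq_zero, hσ0, or_false] at h5
        simpa using h5
      · simpa using h1
      · simpa using h6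
    · -- all translates have the same modulus
      set N : ℕ → (Fin 3 → ℤ) := fun j => ![n 0 + (j : ℤ) * (2 * σ * n 1), n 1, n 2] with hN
      have hconst : ∀ j : ℕ, ‖cf F (N j)‖ ^ 2 = ‖cf F n‖ ^ 2 := by
        intro j
        induction j with
        | zero =>
          congr 3
          ext i
          fin_cases i <;> simp [hN]
        | succ j ih =>
          rw [← ih, cf_Tmap σ α β hF hemb (N j), norm_mul, EE_norm, one_mul]
          congr 3
          ext i
          fin_cases i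
          · simp [hN]; ring
          · simp [hN]
          · simp [hN]
      have hinj : Function.Injective N := by
        intro a b hab
        have := congrFun hab 0
        simp only [hN, Matrix.cons_val_zero, add_right_inj] at this
        have h3 : (2 * σ * n 1) ≠ 0 := by positivity
        have := mul_right_cancel₀ h3 this
        exact_mod_cast this
      have hs2 : Summable (fun j => ‖cf F (N j)‖ ^ 2) := hP.summable.comp_injective hinj
      simp only [hconst] at hs2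
      rw [summable_const_iff] at hs2
      simpa using hs2
  have hsum : HasSum (fun n => ‖cf F n‖ ^ 2) (‖cf F 0‖ ^ 2) := by
    refine hasSum_single 0 ?_
    intro n hn
    simp [hzero n hn]
  have heq := hP.unique hsum
  have e1 : (∫ t, ‖F t‖ ^ 2 ∂mu3) = mu3.real s := by
    have : (fun t => ‖F t‖ ^ 2) = s.indicator (fun _ => (1 : ℝ)) := by
      ext t
      by_cases ht : t ∈ s <;> simp [hFdef, ht]
    rw [this, integral_indicator hs]
    simp
  have e2 : cf F 0 = (mu3.real s : ℂ) := by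
    have : (fun t => UnitAddTorus.mFourier (-(0 : Fin 3 → ℤ)) t * F t) =
        s.indicator (fun _ => (1 : ℂ)) := by
      ext t
      rw [neg_zero, UnitAddTorus.mFourier_zero]
      by_cases ht : t ∈ s <;> simp [hFdef, ht]
    rw [cf, this, integral_indicator hs]
    simp
  rw [e1, e2] at heq
  have h3 : mu3.real s = 0 ∨ mu3.real s = 1 := by
    rw [Complex.norm_real, Real.norm_eq_abs, sq_abs] at heq
    have : mu3.real s * (mu3.real s - 1) = 0 := by linarith
    rcases mul_eq_zero.mp this with h | h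
    · exact Or.inl h
    · exact Or.inr (by linarith)
  rw [eventuallyConst_set']
  rcases h3 with h3 | h3
  · left
    rw [measureReal_eq_zero_iff] at h3
    exact ae_eq_empty.mpr h3
  · right
    rw [ae_eq_univ]
    have : mu3 s = 1 := by
      rw [measureReal_def] at h3
      rw [← ENNReal.toReal_eq_one_iff]
      exact h3
    rw [prob_compl_eq_zero_iff hs]
    exact this


/-! ## Recurrence of 1-step nilsequences -/

theorem recurrence {G : Type} [TopologicalSpace G] [Group G] [IsTopologicalGroup G]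
    (hcomm : (Subgroup.lowerCentralSeries (⊤ : Subgroup G) 1 = ⊥)) (Γ : Subgroup G)
    [CompactSpace (G ⧸ Γ)] (Ψ : G ⧸ Γ → ℂ) (hΨ : Continuous Ψ) (τ : G) (ε : ℝ) (hε : 0 < ε) :
    ∃ k : ℕ, 1 ≤ k ∧ ∀ y : G ⧸ Γ, ‖Ψ ((τ ^ k) • y) - Ψ y‖ ≤ ε := by
  have hc : ∀ a b : G, a * b = b * a := by
    rw [Subgroup.top_lowerCentralSeries_one] at hcomm
    intro a b
    have h1 := Subgroup.commutator_mem_commutator (Subgroup.mem_top a) (Subgroup.mem_top b)
    rw [← commutator_def] at h1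
    rw [hcomm, Subgroup.mem_bot] at h1
    exact commutatorElement_eq_one_iff_mul_comm.mp h1
  have hn : Γ.Normal := ⟨fun n hn g => by rw [hc g n]; simpa using hn⟩
  let F : C(G ⧸ Γ, C(G ⧸ Γ, ℂ)) :=
    ContinuousMap.curry ⟨fun p : (G ⧸ Γ) × (G ⧸ Γ) => Ψ (p.1 * p.2), by fun_prop⟩
  have hF : ∀ z y, F z y = Ψ (z * y) := fun z y => rfl
  have hcpt : IsCompact (Set.range F) := isCompact_range F.continuous
  obtain ⟨a, -, φ, hφ, hlim⟩ := hcpt.tendsto_subseq (x := fun n : ℕ => F ((τ ^ n : G) : G ⧸ Γ))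
    (fun n => ⟨_, rfl⟩)
  have hcau : CauchySeq ((fun n : ℕ => F ((τ ^ n : G) : G ⧸ Γ)) ∘ φ) := hlim.cauchySeq
  rw [Metric.cauchySeq_iff] at hcau
  obtain ⟨N, hN⟩ := hcau ε hε
  have h1 := hN (N+1) (by omega) N (by omega)
  have hlt : φ N < φ (N+1) := hφ (Nat.lt_succ_self N)
  refine ⟨φ (N+1) - φ N, by omega, fun y => ?_⟩
  simp only [Function.comp] at h1
  have h2 := (ContinuousMap.dist_lt_iff hε).mp h1 ((((τ ^ (φ N) : G))⁻¹ : G) • y)
  rw [dist_eq_norm, hF, hF] at h2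
  induction y using QuotientGroup.induction_on with
  | H g =>
    have e1 : (((τ ^ (φ (N+1)) : G) : G ⧸ Γ)) * ((((τ ^ (φ N) : G))⁻¹ : G) • (g : G ⧸ Γ)) = (τ ^ (φ (N+1) - φ N)) • (g : G ⧸ Γ) := by
      rw [MulAction.Quotient.smul_coe, MulAction.Quotient.smul_coe, ← QuotientGroup.mk_mul]
      congr 1
      rw [smul_eq_mul, smul_eq_mul, ← mul_assoc]
      congr 1
      rw [mul_inv_eq_iff_eq_mul, ← pow_add]
      congr 1
      omega
    have e2 : (((τ ^ (φ N) : G) : G ⧸ Γ)) * ((((τ ^ (φ N) : G))⁻¹ : G) • (g : G ⧸ Γ)) = (g : G ⧸ Γ) := by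
      rw [MulAction.Quotient.smul_coe, ← QuotientGroup.mk_mul]
      congr 1
      rw [smul_eq_mul, ← mul_assoc, mul_inv_cancel, one_mul]
    rw [e1, e2] at h2
    exact h2.le

/-! ## Averages -/

lemma EE_pow (n : ℕ) (x : UnitAddCircle) : EE (n • x) = EE x ^ n := by
  induction n with
  | zero => simp [EE]
  | succ n ih => rw [succ_nsmul, EE_add, ih, pow_succ]

/-- the bad sequence -/
noncomputable def badseq (α : UnitAddCircle) (p : ℕ+ × ℕ+) : ℂ :=
  EE ((2 * (((p.1 : ℕ) : ℤ) - ((p.2 : ℕ) : ℤ)) ^ 2) • α)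

/-- geometric sum bound -/
lemma geom_bound {z : ℂ} (hz : ‖z‖ = 1) (hz1 : z ≠ 1) (N : ℕ) :
    ‖∑ i ∈ Finset.range N, z ^ i‖ ≤ 2 / ‖z - 1‖ := by
  have h0 : 0 < ‖z - 1‖ := norm_pos_iff.mpr (sub_ne_zero.mpr hz1)
  rw [geom_sum_eq hz1, norm_div]
  refine div_le_div_of_nonneg_right ?_ h0.le
  calc ‖z ^ N - 1‖ ≤ ‖z ^ N‖ + ‖(1:ℂ)‖ := norm_sub_le _ _
    _ = 2 := by rw [norm_pow, hz]; norm_num

lemma diff_sq (u v : UnitAddCircle) : ‖EE u - EE v‖ ^ 2 = 2 - 2 * (EE (u - v)).re := by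
  have h1 : ‖EE u - EE v‖ ^ 2 = ‖EE (u - v) - 1‖ ^ 2 := by
    have : EE u - EE v = EE v * (EE (u - v) - 1) := by
      rw [mul_sub, ← EE_add]
      simp
    rw [this, norm_mul, EE_norm, one_mul]
  rw [h1, ← Complex.normSq_eq_norm_sq, Complex.normSq_sub, Complex.normSq_one]
  have h2 : Complex.normSq (EE (u - v)) = 1 := by
    rw [Complex.normSq_eq_norm_sq, EE_norm]; norm_num
  rw [h2]
  simp
  ring

lemma average_bound (α : UnitAddCircle) (hα : ∀ n : ℤ, n ≠ 0 → n • α ≠ 0) (k : ℕ) (hk : 1 ≤ k) :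
    ∃ C : ℝ, ∀ N : ℕ, 2 * (N : ℝ) ^ 2 - C ≤
      ∑ q ∈ sqr N, ‖badseq α (bmap k q) - badseq α (bmap 0 q)‖ ^ 2 := by
  set z : ℂ := EE ((4 * k : ℤ) • α) with hz
  have hzn : ‖z‖ = 1 := EE_norm _
  have hz1 : z ≠ 1 := by
    rw [hz, Ne, EE_eq_one]
    exact hα _ (by positivity)
  refine ⟨2 * (2 / ‖z - 1‖) ^ 2, fun N => ?_⟩
  have hterm : ∀ q : ℕ × ℕ, ‖badseq α (bmap k q) - badseq α (bmap 0 q)‖ ^ 2 =
      2 - 2 * (EE ((2 * k ^ 2 : ℤ) • α) * (z ^ q.1 * (starRingEnd ℂ) (z ^ q.2))).re := by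
    intro q
    rw [badseq, badseq, diff_sq]
    congr 3
    have e : z ^ q.1 * (starRingEnd ℂ) (z ^ q.2) = EE ((4 * k * ((q.1 : ℤ) - q.2)) • α) := by
      rw [hz, ← EE_pow, ← EE_pow, ← EE_neg, ← EE_add]
      congr 1
      rw [← natCast_zsmul, ← natCast_zsmul, smul_smul, smul_smul, ← neg_smul, ← add_smul]
      congr 1
      ring
    rw [e, ← EE_add, ← sub_smul, ← add_smul]
    congr 2
    simp only [bmap, Nat.succPNat_coe]
    push_cast
    ring
  simp only [hterm]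
  rw [Finset.sum_sub_distrib, ← Finset.mul_sum, ← Complex.re_sum, ← Finset.mul_sum]
  have hprod : ∑ q ∈ sqr N, (z ^ q.1 * (starRingEnd ℂ) (z ^ q.2)) =
      (∑ i ∈ Finset.range N, z ^ i) * (starRingEnd ℂ) (∑ i ∈ Finset.range N, z ^ i) := by
    rw [sqr, Finset.sum_product, map_sum, Finset.sum_mul_sum]
  rw [hprod]
  have hb := geom_bound hzn hz1 N
  have hre : (EE ((2 * k ^ 2 : ℤ) • α) * ((∑ i ∈ Finset.range N, z ^ i) *
      (starRingEnd ℂ) (∑ i ∈ Finset.range N, z ^ i))).re ≤ (2 / ‖z - 1‖) ^ 2 := by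
    refine (Complex.re_le_norm _).trans ?_
    rw [norm_mul, norm_mul, EE_norm, one_mul, RCLike.norm_conj, ← sq]
    exact pow_le_pow_left₀ (norm_nonneg _) hb 2
  have hcard : (∑ q ∈ sqr N, (2:ℝ)) = 2 * (N:ℝ)^2 := by
    simp [sqr, sq]; ring
  rw [hcard]
  linarith

lemma norm_three {x y z : ℂ} : ‖x + y + z‖ ^ 2 ≤ 3 * (‖x‖ ^ 2 + ‖y‖ ^ 2 + ‖z‖ ^ 2) := by
  have h1 : ‖x + y + z‖ ≤ ‖x‖ + ‖y‖ + ‖z‖ := norm_add₃_le
  have h2 : ‖x + y + z‖ ^ 2 ≤ (‖x‖ + ‖y‖ + ‖z‖) ^ 2 := pow_le_pow_left₀ (norm_nonneg _) h1 2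
  nlinarith [sq_nonneg (‖x‖ - ‖y‖), sq_nonneg (‖y‖ - ‖z‖), sq_nonneg (‖x‖ - ‖z‖)]

lemma enorm_sq_eq (x : ℂ) : ‖x‖ₑ ^ 2 = ENNReal.ofReal (‖x‖ ^ 2) := by
  rw [← ofReal_norm, ENNReal.ofReal_pow (norm_nonneg _)]

/-- core estimate: no decomposition into an almost periodic part plus a small error -/
lemma core {a b r : ℕ+ × ℕ+ → ℂ} {k : ℕ} {C : ℝ}
    (hC : ∀ N : ℕ, 2 * (N : ℝ) ^ 2 - C ≤ ∑ q ∈ sqr N, ‖a (bmap k q) - a (bmap 0 q)‖ ^ 2)
    (hab : ∀ p, a p = b p + r p)
    (hb : ∀ q, ‖b (bmap k q) - b (bmap 0 q)‖ ≤ 1 / 3)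
    (hr : seminorm2 r ≤ ENNReal.ofReal (1 / 3)) : False := by
  have hk := limsup_le_of_seminorm hr k
  have h0 := limsup_le_of_seminorm hr 0
  set Ak : ℕ → ℝ≥0∞ := fun j => (∑ p ∈ boxs k j, ‖r p‖ₑ ^ 2) / ((boxs k j).card : ℝ≥0∞) with hAk
  set A0 : ℕ → ℝ≥0∞ := fun j => (∑ p ∈ boxs 0 j, ‖r p‖ₑ ^ 2) / ((boxs 0 j).card : ℝ≥0∞) with hA0
  have hpt : ∀ q, ‖a (bmap k q) - a (bmap 0 q)‖ ^ 2 ≤
      3 * ((1/3) ^ 2 + ‖r (bmap k q)‖ ^ 2 + ‖r (bmap 0 q)‖ ^ 2) := by
    intro q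
    have e : a (bmap k q) - a (bmap 0 q) =
        (b (bmap k q) - b (bmap 0 q)) + r (bmap k q) + (- r (bmap 0 q)) := by
      rw [hab, hab]; ring
    rw [e]
    refine norm_three.trans ?_
    rw [norm_neg]
    have := pow_le_pow_left₀ (norm_nonneg _) (hb q) 2
    linarith
  -- the pointwise inequality of averages
  have hmain : ∀ᶠ j : ℕ in atTop, ENNReal.ofReal (3/2) ≤
      3 * (ENNReal.ofReal ((1/3)^2) + Ak j + A0 j) := by
    have hlarge : ∀ᶠ j : ℕ in atTop, C ≤ (1/2) * ((j:ℝ)+1)^2 := by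
      have : Tendsto (fun j : ℕ => (1/2) * ((j:ℝ)+1)^2) atTop atTop := by
        refine Tendsto.const_mul_atTop (by norm_num) ?_
        refine (tendsto_pow_atTop (by norm_num)).comp ?_
        exact tendsto_atTop_add_const_right _ _ tendsto_natCast_atTop_atTop
      exact this.eventually_ge_atTop C
    filter_upwards [hlarge] with j hj
    have hN := hC (j+1)
    push_cast at hN
    have hsum : (3/2) * ((j:ℝ)+1)^2 ≤ ∑ q ∈ sqr (j+1), 3 * ((1/3) ^ 2 + ‖r (bmap k q)‖ ^ 2 +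
        ‖r (bmap 0 q)‖ ^ 2) := by
      refine le_trans ?_ (Finset.sum_le_sum fun q _ => hpt q)
      linarith
    have hcardN : ((sqr (j+1)).card : ℝ) = ((j:ℝ)+1)^2 := by
      simp [sqr]; ring
    have hsum2 : (3/2) * ((j:ℝ)+1)^2 ≤ 3 * ((1/3)^2 * ((j:ℝ)+1)^2 +
        (∑ q ∈ sqr (j+1), ‖r (bmap k q)‖ ^ 2) + (∑ q ∈ sqr (j+1), ‖r (bmap 0 q)‖ ^ 2)) := by
      refine hsum.trans (le_of_eq ?_)
      rw [← Finset.mul_sum, Finset.sum_add_distrib, Finset.sum_add_distrib, Finset.sum_const,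
        nsmul_eq_mul, hcardN]
      ring
    have hpos : (0:ℝ) < ((j:ℝ)+1)^2 := by positivity
    have hdiv : (3/2 : ℝ) ≤ 3 * ((1/3)^2 +
        (∑ q ∈ sqr (j+1), ‖r (bmap k q)‖ ^ 2) / ((j:ℝ)+1)^2 +
        (∑ q ∈ sqr (j+1), ‖r (bmap 0 q)‖ ^ 2) / ((j:ℝ)+1)^2) := by
      have h5 := (div_le_div_iff_of_pos_right hpos).mpr hsum2
      rw [mul_div_assoc, div_self hpos.ne', mul_one] at h5
      refine h5.trans (le_of_eq ?_)
      field_simp
    have hA : ∀ c : ℕ, ENNReal.ofReal ((∑ q ∈ sqr (j+1), ‖r (bmap c q)‖ ^ 2) / ((j:ℝ)+1)^2) =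
        (∑ p ∈ boxs c j, ‖r p‖ₑ ^ 2) / ((boxs c j).card : ℝ≥0∞) := by
      intro c
      rw [ENNReal.ofReal_div_of_pos hpos, boxs_card, boxs, Finset.sum_map]
      congr 1
      · rw [ENNReal.ofReal_sum_of_nonneg (fun _ _ => by positivity)]
        refine Finset.sum_congr rfl fun q _ => ?_
        rw [enorm_sq_eq]
        rfl
      · rw [← ENNReal.ofReal_natCast]
        congr 1
        push_cast
        ring
    calc ENNReal.ofReal (3/2) ≤ ENNReal.ofReal (3 * ((1/3)^2 +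
        (∑ q ∈ sqr (j+1), ‖r (bmap k q)‖ ^ 2) / ((j:ℝ)+1)^2 +
        (∑ q ∈ sqr (j+1), ‖r (bmap 0 q)‖ ^ 2) / ((j:ℝ)+1)^2)) := ENNReal.ofReal_le_ofReal hdiv
      _ = 3 * (ENNReal.ofReal ((1/3)^2) + Ak j + A0 j) := by
        rw [ENNReal.ofReal_mul (by norm_num), ENNReal.ofReal_add (by positivity) (by positivity),
          ENNReal.ofReal_add (by positivity) (by positivity), hA k, hA 0]
        simp only [hAk, hA0]
        norm_num
  have hlt : (ENNReal.ofReal (1/3)) ^ 2 < ENNReal.ofReal (1/8) := by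
    rw [← ENNReal.ofReal_pow (by norm_num), ENNReal.ofReal_lt_ofReal_iff (by norm_num)]
    norm_num
  have h1 := eventually_lt_of_limsup_lt (lt_of_le_of_lt hk hlt)
  have h2 := eventually_lt_of_limsup_lt (lt_of_le_of_lt h0 hlt)
  obtain ⟨j, h3, h4, h5⟩ := (hmain.and (h1.and h2)).exists
  have hfin : ENNReal.ofReal (3/2) ≤
      3 * (ENNReal.ofReal ((1/3)^2) + ENNReal.ofReal (1/8) + ENNReal.ofReal (1/8)) := by
    refine h3.trans ?_
    gcongr
  have e : 3 * (ENNReal.ofReal ((1/3)^2) + ENNReal.ofReal (1/8) + ENNReal.ofReal (1/8)) =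
      ENNReal.ofReal (13/12) := by
    rw [← ENNReal.ofReal_add (by norm_num) (by norm_num),
      ← ENNReal.ofReal_add (by norm_num) (by norm_num)]
    have : (3 : ℝ≥0∞) = ENNReal.ofReal 3 := by norm_num
    rw [this, ← ENNReal.ofReal_mul (by norm_num)]
    norm_num
  rw [e, ENNReal.ofReal_le_ofReal_iff (by norm_num)] at hfin
  norm_num at hfin

/-! ## Conclusion -/

lemma Tmap_iterate {σ : ℤ} (hσ : σ * σ = 1) (α β : UnitAddCircle) (m : ℕ) (p : X3) :
    (Tmap σ α β)^[m] p =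
      ![p 0 + ((m : ℤ) * σ) • α, p 1 + (2 * m * σ) • p 0 + ((m : ℤ) ^ 2) • α, p 2 + (m : ℤ) • β] := by
  induction m with
  | zero =>
    ext i
    fin_cases i <;> simp
  | succ m ih =>
    rw [Function.iterate_succ_apply', ih]
    ext i
    fin_cases i
    · simp only [Tmap, Matrix.cons_val_zero, Fin.zero_eta]
      push_cast
      rw [add_mul, one_mul, add_smul, add_assoc]
    · simp only [Tmap, Matrix.cons_val_zero, Matrix.cons_val_one, Fin.mk_one, smul_add, smul_smul]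
      have e1 : ((m + 1 : ℕ) : ℤ) ^ 2 = (m:ℤ)^2 + (2 * σ) * (m * σ) + 1 := by
        push_cast
        linear_combination (-2 * (m:ℤ)) * hσ
      have e2 : 2 * ((m + 1 : ℕ) : ℤ) * σ = 2 * m * σ + 2 * σ := by push_cast; ring
      rw [e1, e2]
      simp only [add_smul, one_smul]
      abel
    · simp only [Tmap, Matrix.cons_val]
      push_cast
      rw [add_smul, one_smul]
      simp [add_assoc]

lemma TE_zpow {σ : ℤ} (hσ : σ * σ = 1) (α β : UnitAddCircle) (k : ℤ) (p : X3) :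
    (((TE σ hσ α β).toEquiv : Equiv.Perm X3) ^ k) p 0 = p 0 + (k * σ) • α ∧
    (((TE σ hσ α β).toEquiv : Equiv.Perm X3) ^ k) p 2 = p 2 + k • β := by
  have hf : ∀ q : X3, ((TE σ hσ α β).toEquiv : Equiv.Perm X3) q = Tmap σ α β q := fun q => rfl
  have hi : ∀ q : X3, (((TE σ hσ α β).toEquiv : Equiv.Perm X3)⁻¹) q = Tinv σ α β q := fun q => rfl
  induction k using Int.induction_on with
  | zero => simp
  | succ i ih =>
    rw [add_comm, zpow_add, zpow_one, Equiv.Perm.mul_apply, hf]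
    simp only [Tmap, Matrix.cons_val_zero, Matrix.cons_val]
    rw [ih.1, ih.2]
    constructor
    · rw [add_mul, one_mul, add_smul]; abel
    · rw [add_smul, one_smul]; abel
  | pred i ih =>
    rw [sub_eq_add_neg, add_comm (-(i : ℤ)) (-1), zpow_add, zpow_neg_one, Equiv.Perm.mul_apply, hi]
    simp only [Tinv, Matrix.cons_val_zero, Matrix.cons_val]
    rw [ih.1, ih.2]
    constructor
    · rw [add_mul, neg_one_mul, add_smul, neg_smul σ]; abel
    · rw [add_smul, neg_smul (i : ℤ), neg_one_smul]; abel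

lemma sqrt_indep (k m n : ℤ) (h : (k : ℝ) * √2 + m * √3 = n) : k = 0 ∧ m = 0 := by
  have h2 : (√2 : ℝ) ^ 2 = 2 := Real.sq_sqrt (by norm_num)
  have h3 : (√3 : ℝ) ^ 2 = 3 := Real.sq_sqrt (by norm_num)
  have h6 : (√2 : ℝ) * √3 = √6 := by
    rw [← Real.sqrt_mul (by norm_num)]; norm_num
  have i2 : Irrational (√2) := irrational_sqrt_two
  have i3 : Irrational (√3) := by simpa using Nat.prime_three.irrational_sqrt
  have i6 : Irrational (√(6:ℕ)) := by
    rw [irrational_sqrt_natCast_iff]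
    rintro ⟨r, hr⟩
    have hr1 : r ≤ 2 := by nlinarith
    interval_cases r <;> omega
  have hsq : 2 * (k:ℝ) * m * √6 = n ^ 2 - 2 * k ^ 2 - 3 * m ^ 2 := by
    rw [← h, ← h6]
    linear_combination (-(k:ℝ)^2) * h2 - (m:ℝ)^2 * h3
  by_cases hk : k = 0
  · refine ⟨hk, ?_⟩
    by_contra hm
    subst hk
    simp only [Int.cast_zero, zero_mul, zero_add] at h
    apply i3.ne_rat ((n : ℚ) / m)
    push_cast
    have : (m : ℝ) ≠ 0 := by exact_mod_cast hm
    field_simp
    linarith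
  · by_cases hm : m = 0
    · exfalso
      subst hm
      simp only [Int.cast_zero, zero_mul, add_zero] at h
      apply i2.ne_rat ((n : ℚ) / k)
      push_cast
      have : (k : ℝ) ≠ 0 := by exact_mod_cast hk
      field_simp
      linarith
    · exfalso
      apply i6.ne_rat (((n:ℚ)^2 - 2 * k^2 - 3 * m^2) / (2 * k * m))
      push_cast
      have hk' : (k : ℝ) ≠ 0 := by exact_mod_cast hk
      have hm' : (m : ℝ) ≠ 0 := by exact_mod_cast hm
      field_simp
      linarith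

lemma circle_indep (k m : ℤ) (h : k • ((√2 : ℝ) : UnitAddCircle) + m • ((√3 : ℝ) : UnitAddCircle) = 0) :
    k = 0 ∧ m = 0 := by
  rw [← AddCircle.coe_zsmul, ← AddCircle.coe_zsmul, ← AddCircle.coe_add,
    AddCircle.coe_eq_zero_iff] at h
  obtain ⟨n, hn⟩ := h
  refine sqrt_indep k m n ?_
  simp only [zsmul_eq_mul, mul_one] at hn
  linarith

lemma corr_eq (α β : UnitAddCircle) (p : ℕ+ × ℕ+) :
    corr mu3 (TE 1 (by norm_num) α β) (TE (-1) (by norm_num) α β)
      (fun q => EE (-((2:ℤ) • q 1))) (fun q => EE (q 1)) (fun q => EE (q 1)) p = badseq α p := by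
  have hc1 : ⇑(TE 1 (by norm_num) α β) = Tmap 1 α β := rfl
  have hc2 : ⇑(TE (-1) (by norm_num) α β) = Tmap (-1) α β := rfl
  rw [corr, hc1, hc2]
  have : ∀ q : X3, EE (-((2:ℤ) • q 1)) * EE (((Tmap 1 α β)^[(p.1 : ℕ)]
      ((Tmap (-1) α β)^[(p.2 : ℕ)] q)) 1) * EE (((Tmap 1 α β)^[(p.2 : ℕ)]
      ((Tmap (-1) α β)^[(p.1 : ℕ)] q)) 1) = badseq α p := by
    intro q
    rw [Tmap_iterate (by norm_num), Tmap_iterate (by norm_num), Tmap_iterate (by norm_num),
      Tmap_iterate (by norm_num), badseq, ← EE_add, ← EE_add]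
    congr 1
    simp only [Matrix.cons_val_zero, Matrix.cons_val_one, smul_add, smul_smul]
    set m : ℤ := ((p.1 : ℕ) : ℤ)
    set n : ℤ := ((p.2 : ℕ) : ℤ)
    have e : (2 * (m - n) ^ 2) • α = (n^2) • α + (2 * m * 1 * (n * -1)) • α + (m^2) • α +
      (m^2) • α + (2 * n * 1 * (m * -1)) • α + (n^2) • α := by
      simp only [← add_smul]
      congr 1
      ring
    have e2 : (2 * n * -1) • q 0 = -((2 * n * 1) • q 0) := by rw [← neg_smul]; congr 1
    have e3 : (2 * m * -1) • q 0 = -((2 * m * 1) • q 0) := by rw [← neg_smul]; congr 1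
    rw [e, e2, e3, two_smul]
    abel
  simp only [this]
  simp

lemma badseq_not_approx (α : UnitAddCircle) (hα : ∀ n : ℤ, n ≠ 0 → n • α ≠ 0) :
    ¬ IsApproxNilsequence 1 (badseq α) := by
  intro h
  obtain ⟨ast, aer, hsum, hnil, -, her⟩ := h (1/3) (by norm_num)
  obtain ⟨d, G, _, _, _, hLie, Γ, Ψ, τ₁, τ₂, hcomm, -, hcpt, hΨ, -, hrep⟩ := hnil
  have : IsTopologicalGroup G := topologicalGroup_of_lieGroup (𝓡 d) ∞
  obtain ⟨k, hk, hkb⟩ := recurrence hcomm Γ Ψ hΨ τ₁ (1/3) (by norm_num)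
  obtain ⟨C, hC⟩ := average_bound α hα k hk
  refine core (k := k) (r := aer) (b := ast) hC hsum ?_ her
  intro q
  have := hkb ((τ₁ ^ (0 + q.1 + 1) * τ₂ ^ (q.2 + 1)) • ((1 : G) : G ⧸ Γ))
  rw [bmap, bmap, hrep, hrep]
  simp only [Nat.succPNat_coe, Nat.succ_eq_add_one]
  rw [smul_smul, ← mul_assoc, ← pow_add] at this
  have e : k + (0 + q.1 + 1) = k + q.1 + 1 := by omega
  rw [e] at this
  exact this

/-- **Negative answer to Q1.** There are a standard Borel atomless probability space and commuting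
invertible measure preserving maps `T₁`, `T₂`, both ergodic and generating a free action of `ℤ²`,
and bounded `f, g, h`, such that `a(m, n) = ∫ f · T₁^m T₂^n g · T₁^n T₂^m h dμ` is not an
approximate 1-step nilsequence in 2 variables. -/
theorem result :
    ∃ (X : Type) (_ : MeasurableSpace X) (_ : StandardBorelSpace X) (μ : Measure X)
      (_ : IsProbabilityMeasure μ) (_ : NullSingletonClass μ) (T₁ T₂ : X ≃ᵐ X),
      (∀ x, T₁ (T₂ x) = T₂ (T₁ x)) ∧
      Ergodic T₁ μ ∧ Ergodic T₂ μ ∧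
      (∀ k l : ℤ, (k, l) ≠ (0, 0) →
        ∀ x, ((T₁.toEquiv : Equiv.Perm X) ^ k * (T₂.toEquiv : Equiv.Perm X) ^ l) x ≠ x) ∧
      ∃ f g h : X → ℂ, MemLp f ⊤ μ ∧ MemLp g ⊤ μ ∧ MemLp h ⊤ μ ∧
        ¬ IsApproxNilsequence 1 (corr μ T₁ T₂ f g h) := by
  set α : UnitAddCircle := ((√2 : ℝ) : UnitAddCircle) with hαdef
  set β : UnitAddCircle := ((√3 : ℝ) : UnitAddCircle) with hβdef
  have hmeas1 : Measurable (fun q : X3 => q 1) := measurable_pi_apply 1
  have hcEE : Continuous EE := by unfold EE; fun_prop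
  have hEE : Measurable EE := hcEE.measurable
  refine ⟨X3, inferInstance, inferInstance, mu3, inferInstance, ?_,
    TE 1 (by norm_num) α β, TE (-1) (by norm_num) α β, ?_, ?_, ?_, ?_, ?_⟩
  · have hne : α ≠ 0 := by
      intro h0
      have := (circle_indep 1 0 (by rw [one_smul, zero_smul, add_zero]; exact h0)).1
      omega
    have : Nontrivial UnitAddCircle := ⟨α, 0, hne⟩
    have : (𝓝[≠] (0 : UnitAddCircle)).NeBot := inferInstance
    have h1 : NullSingletonClass (AddCircle.haarAddCircle : Measure UnitAddCircle) := inferInstance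
    unfold mu3
    exact Measure.pi_nullSingletonClass (0 : Fin 3)
  · intro x
    change Tmap 1 α β (Tmap (-1) α β x) = Tmap (-1) α β (Tmap 1 α β x)
    ext i
    fin_cases i
    · simp [Tmap]
    · simp only [Tmap, Matrix.cons_val_zero, Matrix.cons_val_one, Fin.mk_one, smul_add, smul_smul]
      have e3 : (2 * (-1) : ℤ) • x 0 = -((2 * 1 : ℤ) • x 0) := by rw [← neg_smul]; norm_num
      have e4 : (2 * (-1) * 1 : ℤ) • α = (2 * 1 * (-1) : ℤ) • α := by norm_num
      rw [e3, e4]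
      abel
    · simp [Tmap]
  · exact ergodic_Tmap (by norm_num) circle_indep
  · exact ergodic_Tmap (by norm_num) circle_indep
  · intro k l hkl x hx
    have h0 := congrFun hx 0
    have h2 := congrFun hx 2
    rw [Equiv.Perm.mul_apply, (TE_zpow _ α β k _).1, (TE_zpow _ α β l _).1] at h0
    rw [Equiv.Perm.mul_apply, (TE_zpow _ α β k _).2, (TE_zpow _ α β l _).2] at h2
    rw [add_assoc, add_eq_left, ← add_smul] at h0 h2
    have h3 := (circle_indep (l * -1 + k * 1) 0 (by simpa using h0)).1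
    have h4 := (circle_indep 0 (l + k) (by simpa using h2)).2
    apply hkl
    ext <;> simp <;> omega
  · refine ⟨(fun q => EE (-((2:ℤ) • q 1))), (fun q => EE (q 1)), (fun q => EE (q 1)), ?_, ?_, ?_, ?_⟩
    · refine memLp_top_of_bound ?_ 1 (Eventually.of_forall fun q => (EE_norm _).le)
      have : Continuous (fun q : X3 => EE (-((2:ℤ) • q 1))) := by fun_prop
      exact this.aestronglyMeasurable
    · refine memLp_top_of_bound ?_ 1 (Eventually.of_forall fun q => (EE_norm _).le)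
      have : Continuous (fun q : X3 => EE (q 1)) := by fun_prop
      exact this.aestronglyMeasurable
    · refine memLp_top_of_bound ?_ 1 (Eventually.of_forall fun q => (EE_norm _).le)
      have : Continuous (fun q : X3 => EE (q 1)) := by fun_prop
      exact this.aestronglyMeasurable
    · have : corr mu3 (TE 1 (by norm_num) α β) (TE (-1) (by norm_num) α β)
        (fun q => EE (-((2:ℤ) • q 1))) (fun q => EE (q 1)) (fun q => EE (q 1)) = badseq α :=
        funext fun p => corr_eq α β p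
      rw [this]
      refine badseq_not_approx α ?_
      intro n hn hn0
      exact hn (circle_indep n 0 (by simpa using hn0)).1

end Pool.Agent.Results.MP_8ac988_an.NotOneStep
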